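import Mathlib
import Pool.Agent.Lib.MP_524519_ag.DU5.AB.Iface

/-! DU5, chapter AB, module CROSS: the gradient is proportional to the minors. -/

set_option autoImplicit false

namespace Pool.Agent.DU5.AB.H17

open MvPowerSeries Pool.Agent.DU5

theorem cross_aux {R : Type} [CommRing R] (a b v : Fin 3 → R) (ha : ∑ i, v i * a i = 0)
    (hb : ∑ i, v i * b i = 0) (i j : Fin 3) :
    v j * (a (i + 1) * b (i + 2) - a (i + 2) * b (i + 1)) =
      v i * (a (j + 1) * b (j + 2) - a (j + 2) * b (j + 1)) := by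
  rw [Fin.sum_univ_three] at ha hb
  have e1 : (0 : Fin 3) + 1 = 1 := rfl
  have e2 : (0 : Fin 3) + 2 = 2 := rfl
  have e3 : (1 : Fin 3) + 1 = 2 := rfl
  have e4 : (1 : Fin 3) + 2 = 0 := rfl
  have e5 : (2 : Fin 3) + 1 = 0 := rfl
  have e6 : (2 : Fin 3) + 2 = 1 := rfl
  have h01 : v 1 * (a (0 + 1) * b (0 + 2) - a (0 + 2) * b (0 + 1)) =
      v 0 * (a (1 + 1) * b (1 + 2) - a (1 + 2) * b (1 + 1)) := by
    rw [e1, e2, e3, e4]
    linear_combination b 2 * ha - a 2 * hb
  have h12 : v 2 * (a (1 + 1) * b (1 + 2) - a (1 + 2) * b (1 + 1)) =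
      v 1 * (a (2 + 1) * b (2 + 2) - a (2 + 2) * b (2 + 1)) := by
    rw [e3, e4, e5, e6]
    linear_combination b 0 * ha - a 0 * hb
  have h20 : v 0 * (a (2 + 1) * b (2 + 2) - a (2 + 2) * b (2 + 1)) =
      v 2 * (a (0 + 1) * b (0 + 2) - a (0 + 2) * b (0 + 1)) := by
    rw [e1, e2, e5, e6]
    linear_combination b 1 * ha - a 1 * hb
  fin_cases i <;> fin_cases j
  · rfl
  · exact h01
  · exact h20.symm
  · exact h01.symm
  · rfl
  · exact h12
  · exact h20
  · exact h12.symm
  · rfl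

theorem cross (h : CHAINStatement) : CROSSStatement := by
  intro k A _ _ _ D x hx f hf i j
  have hE : ∀ E : Derivation k (PowerSeries A) (PowerSeries A),
      ∑ i, ev x (pderiv k i f) * E (x i) = 0 := by
    intro E
    rw [← h k A 3 x hx E f, hf, map_zero]
  exact cross_aux (fun i => PowerSeries.derivative A (x i)) (fun i => dl D (x i))
    (fun i => ev x (pderiv k i f)) (hE (du k)) (hE (dlD D)) i j

end Pool.Agent.DU5.AB.H17
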