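import Mathlib
import Pool.Agent.Lib.MP_524519_ag.DU5.AB.Iface

/-! DU5, chapter AB, module MPOW: an ideal of finite colength contains a power of the maximal
ideal. -/

set_option autoImplicit false

namespace Pool.Agent.DU5.AB.H17

open MvPowerSeries Pool.Agent.DU5

theorem mpow : MPOWStatement := by
  intro k _ n I hI
  unfold len at hI
  rw [Module.length_ne_top_iff, isFiniteLength_iff_isNoetherian_isArtinian] at hI
  have := hI.1
  have hart : IsArtinianRing (O k n ⧸ I) := IsArtinianRing.of_finite k (O k n ⧸ I)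
  obtain ⟨N, hN⟩ := IsArtinianRing.isNilpotent_jacobson_bot (R := O k n ⧸ I)
  refine ⟨N, ?_⟩
  have hm : (Ideal.span (Set.range (X : Fin n → O k n))).map (Ideal.Quotient.mk I) ≤
      Ideal.jacobson ⊥ := by
    rw [Ideal.map_span, Ideal.span_le]
    rintro - ⟨-, ⟨i, rfl⟩, rfl⟩
    rw [SetLike.mem_coe, Ideal.mem_jacobson_bot]
    intro y
    obtain ⟨z, rfl⟩ := Ideal.Quotient.mk_surjective y
    rw [← map_mul, ← map_one (Ideal.Quotient.mk I), ← map_add]
    apply IsUnit.map
    rw [MvPowerSeries.isUnit_iff_constantCoeff]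
    simp
  have h2 : ((Ideal.span (Set.range (X : Fin n → O k n))) ^ N).map (Ideal.Quotient.mk I) ≤ ⊥ := by
    rw [Ideal.map_pow]
    calc _ ≤ (Ideal.jacobson (⊥ : Ideal (O k n ⧸ I))) ^ N := Ideal.pow_right_mono hm N
      _ = ⊥ := hN
      _ ≤ ⊥ := le_rfl
  rw [Ideal.map_le_iff_le_comap] at h2
  refine h2.trans ?_
  rw [← RingHom.ker_eq_comap_bot, Ideal.mk_ker]

end Pool.Agent.DU5.AB.H17
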