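import Mathlib
import Pool.Agent.Lib.MP_524519_ag.DU5.AB.Iface

/-! DU5, chapter AB, module NONZ: the gradient is not zero at a nonzero point. -/

set_option autoImplicit false

namespace Pool.Agent.DU5.AB.H17

open MvPowerSeries Pool.Agent.DU5

theorem nonz (h : MPOWStatement) : NONZStatement := by
  intro k K _ _ _ n f hf x hx hx0
  by_contra hcon
  push Not at hcon
  obtain ⟨N, hN⟩ := h k n (jac f) hf
  have hker : jac f ≤ RingHom.ker (substAlgHom (R := k) (hs hx) : O k n →ₐ[k] PowerSeries K) := by
    unfold jac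
    rw [Ideal.span_le]
    rintro - ⟨i, rfl⟩
    rw [SetLike.mem_coe, RingHom.mem_ker, coe_substAlgHom]
    exact hcon i
  apply hx0
  funext i
  have h1 : (X i : O k n) ^ N ∈ jac f :=
    hN (Ideal.pow_mem_pow (Ideal.subset_span (Set.mem_range_self i)) N)
  have h2 := hker h1
  rw [RingHom.mem_ker, map_pow, substAlgHom_X] at h2
  exact eq_zero_of_pow_eq_zero h2

end Pool.Agent.DU5.AB.H17
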